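import Pool.Agent.SYB.Seg

/-! # Exposed points above the level are common ends of two non-parallel frontier segments -/

set_option autoImplicit false

namespace Pool.Agent.SYS

open MeasureTheory Set Filter Pool.Agent.SYL Pool.Agent.SYB

/-- at a point above the level and for every direction which leaves the body there is a supporting
functional, nonnegative in this direction, whose face reaches a point below the level -/
theorem T_gen {d : ℕ} {D : Set (Fin d → ℝ)} (hL : LocMax d D) {x : Fin d → ℝ}
    (hxD : x ∈ D) (hlev : tau d D < phi D x) {v : Fin d → ℝ} {u : (Fin d → ℝ) →L[ℝ] ℝ}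
    (hu : ∀ y ∈ D, u y ≤ u x) (huv : 0 < u v) :
    ∃ y ∈ D, phi D y ≤ tau d D ∧ ∃ f : (Fin d → ℝ) →L[ℝ] ℝ, f ≠ 0 ∧ (∀ w ∈ D, f w ≤ f x) ∧
      f y = f x ∧ 0 ≤ f v := by
  have hD := hL.1
  obtain ⟨C, δ, hC, hδ, hadd⟩ := Bi_add hL
  set p : ℕ → (Fin d → ℝ) := fun n => x + (1 / ((n : ℝ) + 1)) • v with hp
  set K : ℕ → Set (Fin d → ℝ) := fun n => convexHull ℝ (insert (p n) D) with hK
  have hDK : ∀ n, D ⊆ K n := fun n => (subset_insert _ _).trans (subset_convexHull ℝ _)
  have hpout : ∀ n, p n ∉ D := by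
    intro n h
    have h1 := hu _ h
    rw [hp] at h1
    simp only [map_add, map_smul, smul_eq_mul] at h1
    have h2 : 0 < 1 / ((n : ℝ) + 1) * u v := by positivity
    linarith
  have hpx : Tendsto p atTop (nhds x) := by
    have h1 : Tendsto (fun n : ℕ => (1 / ((n : ℝ) + 1))) atTop (nhds 0) :=
      tendsto_one_div_add_atTop_nhds_zero_nat
    have h2 := (h1.smul_const v).const_add x
    simpa [hp] using h2
  -- the difference has small volume
  have hnear : ∀ n, ∀ z ∈ K n, ∃ q ∈ D, dist z q ≤ dist (p n) x := by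
    intro n z hz
    obtain ⟨t, w, hw, ht0, ht1, rfl⟩ := Seg_mem hD hz
    refine ⟨x + t • (w - x), (by
        have := hD.1 hxD hw (by linarith : (0 : ℝ) ≤ 1 - t) ht0 (by ring)
        have e : (1 - t) • x + t • w = x + t • (w - x) := by
          rw [sub_smul, one_smul, smul_sub]
          abel
        rwa [e] at this), ?_⟩
    rw [dist_eq_norm, dist_eq_norm]
    have : p n + t • (w - p n) - (x + t • (w - x)) = (1 - t) • (p n - x) := by
      rw [sub_smul, one_smul, smul_sub, smul_sub, smul_sub]
      abel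
    rw [this, norm_smul, Real.norm_eq_abs, abs_of_nonneg (by linarith)]
    have := norm_nonneg (p n - x)
    nlinarith
  have hthick : ∀ n, K n ⊆ Metric.cthickening (dist (p n) x) D := by
    intro n z hz
    obtain ⟨q, hq, hq2⟩ := hnear n z hz
    exact Metric.mem_cthickening_of_dist_le z q _ _ hq hq2
  have hvol : Tendsto (fun n => vol (K n \ D)) atTop (nhds 0) := by
    have h1 := tendsto_measure_cthickening_of_isCompact (μ := (volume : Measure (Fin d → ℝ))) hD.2.1
    have h2 : Tendsto (fun n => dist (p n) x) atTop (nhds 0) :=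
      tendsto_iff_dist_tendsto_zero.1 hpx
    have h3 := h1.comp h2
    have h4 : Tendsto (fun n => (volume (Metric.cthickening (dist (p n) x) D)).toReal) atTop
        (nhds (volume D).toReal) :=
      (ENNReal.tendsto_toReal hD.2.1.measure_lt_top.ne).comp h3
    have h5 : Tendsto (fun n => (volume (Metric.cthickening (dist (p n) x) D)).toReal - vol D)
        atTop (nhds 0) := by
      have := h4.sub_const (vol D)
      rwa [show (volume D).toReal - vol D = 0 from sub_self _] at this
    refine squeeze_zero (fun n => ENNReal.toReal_nonneg) (fun n => ?_) h5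
    have h6 := Bi_sdiff (Seg_body hD (p n)).2.1 hD.2.1 (hDK n)
    have h7 : vol (K n) ≤ (volume (Metric.cthickening (dist (p n) x) D)).toReal :=
      ENNReal.toReal_mono hD.2.1.cthickening.measure_lt_top.ne (measure_mono (hthick n))
    show vol (K n \ D) ≤ _
    linarith
  have hvolpos : ∀ n, 0 < vol (K n \ D) := by
    intro n
    have hb := Seg_body hD (p n)
    have hcl : p n ∈ closure (interior (K n)) := by
      rw [hb.1.closure_interior_eq_closure_of_nonempty_interior hb.2.2]
      exact subset_closure (subset_convexHull ℝ _ (mem_insert _ _))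
    have ho : IsOpen Dᶜ := hD.2.1.isClosed.isOpen_compl
    obtain ⟨y, hy1, hy2⟩ := mem_closure_iff.1 hcl _ ho (hpout n)
    rw [vol, ENNReal.toReal_pos_iff]
    refine ⟨?_, ((measure_mono sdiff_subset).trans_lt hb.2.1.measure_lt_top)⟩
    have hsub : Dᶜ ∩ interior (K n) ⊆ K n \ D := fun w hw => ⟨interior_subset hw.2, hw.1⟩
    exact ((ho.inter isOpen_interior).measure_pos volume ⟨y, hy1, hy2⟩).trans_le
      (measure_mono hsub)
  by_contra hcon
  -- a uniform gap
  have hgap : ∃ c : ℝ, 0 < c ∧ ∃ N : ℕ, ∀ n ≥ N, ∀ z ∈ K n \ D, tau d D + c ≤ phi D z := by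
    by_contra hg
    push Not at hg
    have hchoice : ∀ k : ℕ, ∃ n : ℕ, k ≤ n ∧ ∃ z ∈ K n \ D,
        phi D z < tau d D + 1 / ((k : ℝ) + 1) := by
      intro k
      obtain ⟨n, hn, z, hz, hz2⟩ := hg (1 / ((k : ℝ) + 1)) (by positivity) k
      exact ⟨n, hn, z, hz, hz2⟩
    choose n hn z hz hzlev using hchoice
    have hntop : Tendsto n atTop atTop := tendsto_atTop_mono hn tendsto_id
    have hpn : Tendsto (fun k => p (n k)) atTop (nhds x) := hpx.comp hntop
    have hdn : Tendsto (fun k => dist (p (n k)) x) atTop (nhds 0) :=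
      tendsto_iff_dist_tendsto_zero.1 hpn
    -- the points stay in a compact set
    have hbd : ∀ k, z k ∈ Metric.cthickening ‖v‖ D := by
      intro k
      refine Metric.cthickening_mono ?_ D (hthick (n k) (hz k).1)
      rw [hp]
      simp only
      rw [dist_eq_norm, add_sub_cancel_left, norm_smul, Real.norm_eq_abs,
        abs_of_pos (by positivity)]
      have h1 : 1 / (((n k : ℕ) : ℝ) + 1) ≤ 1 := by
        rw [div_le_one (by positivity)]
        have : (0 : ℝ) ≤ (n k : ℕ) := Nat.cast_nonneg _
        linarith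
      have := norm_nonneg v
      nlinarith
    -- separating functionals of norm one
    have hsep : ∀ k, ∃ f : (Fin d → ℝ) →L[ℝ] ℝ, ‖f‖ = 1 ∧ (∀ w ∈ D, f w ≤ f (z k)) ∧
        f (z k) ≤ f (p (n k)) ∧ 0 ≤ f v := by
      intro k
      obtain ⟨f, c, h1, h2⟩ := geometric_hahn_banach_closed_point hD.1 hD.2.1.isClosed (hz k).2
      have hf0 : f ≠ 0 := by
        rintro rfl
        have := h1 x hxD
        simp only [ContinuousLinearMap.zero_apply] at this h2
        linarith
      have hfn : 0 < ‖f‖ := norm_pos_iff.2 hf0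
      have hfz : ∀ w ∈ D, f w ≤ f (z k) := fun w hw => ((h1 w hw).trans h2).le
      obtain ⟨t, w, hw, ht0, ht1, htz⟩ := Seg_mem hD (hz k).1
      have ht : t < 1 := by
        rcases lt_or_eq_of_le ht1 with h | h
        · exact h
        · exfalso
          apply (hz k).2
          rw [htz, h, one_smul, add_sub_cancel]
          exact hw
      have hfp : f (z k) ≤ f (p (n k)) := by
        have e : f (z k) = (1 - t) * f (p (n k)) + t * f w := by
          rw [htz]
          simp only [map_add, map_smul, map_sub, smul_eq_mul]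
          ring
        have h3 := hfz w hw
        by_contra hlt
        have hlt' := not_le.1 hlt
        nlinarith
      have hfv : 0 ≤ f v := by
        have h3 := hfz x hxD
        have e : f (p (n k)) = f x + 1 / (((n k : ℕ) : ℝ) + 1) * f v := by
          rw [hp]
          simp only [map_add, map_smul, smul_eq_mul]
        have h4 : 0 ≤ 1 / (((n k : ℕ) : ℝ) + 1) * f v := by linarith
        have h5 : (0 : ℝ) < 1 / (((n k : ℕ) : ℝ) + 1) := by positivity
        exact nonneg_of_mul_nonneg_right h4 h5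
      refine ⟨‖f‖⁻¹ • f, ?_, ?_, ?_, ?_⟩
      · rw [norm_smul, norm_inv, norm_norm, inv_mul_cancel₀ hfn.ne']
      · intro w hw
        simp only [ContinuousLinearMap.smul_apply, smul_eq_mul]
        exact mul_le_mul_of_nonneg_left (hfz w hw) (by positivity)
      · simp only [ContinuousLinearMap.smul_apply, smul_eq_mul]
        exact mul_le_mul_of_nonneg_left hfp (by positivity)
      · simp only [ContinuousLinearMap.smul_apply, smul_eq_mul]
        exact mul_nonneg (by positivity) hfv
    choose f hf1 hfD hfp hfv using hsep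
    have : ProperSpace ((Fin d → ℝ) →L[ℝ] ℝ) := FiniteDimensional.proper ℝ _
    obtain ⟨y, -, φ, hφ, hyt⟩ := hD.2.1.cthickening.tendsto_subseq hbd
    obtain ⟨g, hg, ψ, hψ, hgt⟩ := (isCompact_sphere (0 : (Fin d → ℝ) →L[ℝ] ℝ) 1).tendsto_subseq
      (x := fun k => f (φ k)) (fun k => by rw [mem_sphere_zero_iff_norm]; exact hf1 _)
    have hyt2 : Tendsto (fun k => z (φ (ψ k))) atTop (nhds y) := hyt.comp hψ.tendsto_atTop
    have hφψ : Tendsto (fun k => φ (ψ k)) atTop atTop := hφ.tendsto_atTop.comp hψ.tendsto_atTop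
    have hpt2 : Tendsto (fun k => p (n (φ (ψ k)))) atTop (nhds x) := hpn.comp hφψ
    have hgt2 : Tendsto (fun k => f (φ (ψ k))) atTop (nhds g) := hgt
    -- y lies in D
    have hyD : y ∈ D := by
      have h1 : ∀ k, Metric.infDist (z (φ k)) D ≤ dist (p (n (φ k))) x := by
        intro k
        obtain ⟨q, hq, hq2⟩ := hnear _ _ (hz (φ k)).1
        exact (Metric.infDist_le_dist_of_mem hq).trans hq2
      have h2 : Tendsto (fun k => Metric.infDist (z (φ k)) D) atTop (nhds 0) :=
        squeeze_zero (fun k => Metric.infDist_nonneg) h1 (hdn.comp hφ.tendsto_atTop)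
      have h3 : Tendsto (fun k => Metric.infDist (z (φ k)) D) atTop (nhds (Metric.infDist y D)) :=
        (Metric.continuous_infDist_pt D).continuousAt.tendsto.comp hyt
      have h4 : Metric.infDist y D = 0 := tendsto_nhds_unique h3 h2
      exact (hD.2.1.isClosed.mem_iff_infDist_zero ⟨x, hxD⟩).2 h4
    have hylev : phi D y ≤ tau d D := by
      have h1 : Tendsto (fun k => phi D (z (φ k))) atTop (nhds (phi D y)) :=
        (Bi_phi_cont hD.2.1).continuousAt.tendsto.comp hyt
      have h2 : Tendsto (fun k : ℕ => tau d D + 1 / (((φ k : ℕ) : ℝ) + 1)) atTop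
          (nhds (tau d D + 0)) :=
        (tendsto_one_div_add_atTop_nhds_zero_nat.comp hφ.tendsto_atTop).const_add _
      rw [add_zero] at h2
      exact le_of_tendsto_of_tendsto' h1 h2 fun k => (hzlev (φ k)).le
    have happ : ∀ {q : ℕ → (Fin d → ℝ)} {q0 : Fin d → ℝ}, Tendsto q atTop (nhds q0) →
        Tendsto (fun k => f (φ (ψ k)) (q k)) atTop (nhds (g q0)) := by
      intro q q0 hq
      have hc : Continuous fun P : ((Fin d → ℝ) →L[ℝ] ℝ) × (Fin d → ℝ) => P.1 P.2 :=
        isBoundedBilinearMap_apply.continuous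
      exact (hc.tendsto (g, q0)).comp (hgt2.prodMk_nhds hq)
    have hgz := happ hyt2
    have hgp := happ hpt2
    have e1 : ∀ w ∈ D, g w ≤ g y := by
      intro w hw
      have h1 := happ (tendsto_const_nhds (x := w))
      exact le_of_tendsto_of_tendsto' h1 hgz fun k => hfD _ w hw
    have e2 : g y ≤ g x := le_of_tendsto_of_tendsto' hgz hgp fun k => hfp _
    have e3 : 0 ≤ g v := by
      have h1 := happ (tendsto_const_nhds (x := v))
      exact ge_of_tendsto' h1 fun k => hfv _
    have hg0 : g ≠ 0 := by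
      rintro rfl
      rw [mem_sphere_zero_iff_norm, norm_zero] at hg
      exact zero_ne_one hg
    exact hcon ⟨y, hyD, hylev, g, hg0, fun w hw => (e1 w hw).trans e2,
      le_antisymm e2 (e1 x hxD), e3⟩
  obtain ⟨c, hc, N, hN⟩ := hgap
  have hev : ∀ᶠ m in atTop, vol (K m \ D) < min δ (c / C) :=
    hvol.eventually (gt_mem_nhds (lt_min hδ (div_pos hc hC)))
  obtain ⟨m, hm1, hm2⟩ := (hev.and (eventually_ge_atTop N)).exists
  have hb := Seg_body hD (p m)
  have h1 := hadd (K m) hb (hDK m) (hm1.trans_le (min_le_left _ _))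
  have hfin : volume (K m \ D) ≠ ⊤ :=
    ((measure_mono sdiff_subset).trans_lt hb.2.1.measure_lt_top).ne
  have h2 : c * vol (K m \ D) ≤ ∫ y in K m \ D, (phi D y - tau d D) := by
    have e1 : ∫ _ in K m \ D, c = c * vol (K m \ D) := by
      rw [setIntegral_const, smul_eq_mul, mul_comm]
      rfl
    rw [← e1]
    refine setIntegral_mono_on (integrableOn_const hfin)
      ((((Bi_phi_cont hD.2.1).sub continuous_const).continuousOn.integrableOn_compact
        hb.2.1).mono_set sdiff_subset) (hb.2.1.measurableSet.diff hD.2.1.measurableSet) ?_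
    intro y hy
    have := hN m hm2 y hy
    linarith
  have h3 : C * vol (K m \ D) < c := by
    have := hm1.trans_le (min_le_right _ _)
    rw [lt_div_iff₀ hC] at this
    linarith
  have h4 := hvolpos m
  have h5 := h2.trans h1
  nlinarith

/-- a nonzero functional has no maximum over a body at an interior point -/
theorem T_int {d : ℕ} {D : Set (Fin d → ℝ)} {f : (Fin d → ℝ) →L[ℝ] ℝ} (hf : f ≠ 0)
    {x : Fin d → ℝ} (hx : ∀ w ∈ D, f w ≤ f x) {q : Fin d → ℝ} (hq : q ∈ interior D) :
    f q < f x := by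
  obtain ⟨w, hw⟩ : ∃ w, f w ≠ 0 := by
    by_contra hcon
    push Not at hcon
    exact hf (ContinuousLinearMap.ext hcon)
  obtain ⟨w', hw'⟩ : ∃ w', 0 < f w' := by
    rcases lt_or_gt_of_ne hw with h | h
    · exact ⟨-w, by rw [map_neg]; linarith⟩
    · exact ⟨w, h⟩
  have hcont : Tendsto (fun t : ℝ => q + t • w') (nhdsWithin 0 (Ioi 0)) (nhds q) := by
    have h1 : Continuous fun t : ℝ => q + t • w' := by fun_prop
    have h2 := (h1.tendsto 0).mono_left (nhdsWithin_le_nhds (s := Ioi (0 : ℝ)))
    simpa using h2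
  have hev := hcont.eventually (isOpen_interior.mem_nhds hq)
  obtain ⟨t, ht1, ht2⟩ := (hev.and self_mem_nhdsWithin).exists
  have h3 := hx _ (interior_subset ht1)
  rw [map_add, map_smul, smul_eq_mul] at h3
  have h4 : 0 < t * f w' := mul_pos ht2 hw'
  linarith

/-- an exposed point above the level is a common end of two non-parallel frontier segments which
reach points below the level -/
theorem Two {d : ℕ} (hd : 1 ≤ d) {D : Set (Fin d → ℝ)} (hL : LocMax d D) {x : Fin d → ℝ}
    (hx : x ∈ exposedPoints ℝ D) (hlev : tau d D < phi D x) :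
    ∃ z1 ∈ frontier D, ∃ z2 ∈ frontier D, segment ℝ x z1 ⊆ frontier D ∧
      segment ℝ x z2 ⊆ frontier D ∧ phi D z1 ≤ tau d D ∧ phi D z2 ≤ tau d D ∧
      LinearIndependent ℝ ![z1 - x, z2 - x] := by
  have hD := hL.1
  have hxe : x ∈ extremePoints ℝ D := exposedPoints_subset_extremePoints hx
  have hxf : x ∈ frontier D := ⟨subset_closure hxe.1, Ext_notint hd hxe⟩
  obtain ⟨hxD, u, hu⟩ := hx
  obtain ⟨z1, hz1, hz1x, hseg1, hlev1⟩ := Seg_B hL hxf hlev
  obtain ⟨z0, hz0⟩ := hD.2.2
  have hz1D : z1 ∈ D := hD.2.1.isClosed.frontier_subset hz1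
  have hu1 : u z1 < u x := by
    rcases lt_or_eq_of_le (hu z1 hz1D).1 with h | h
    · exact h
    · exact absurd ((hu z1 hz1D).2 h.ge) hz1x
  have hu0 : u z0 ≤ u x := (hu z0 (interior_subset hz0)).1
  set ε := (u x - u z1) / (2 * (u x - u z0 + 1)) with hε
  have hε0 : 0 < ε := div_pos (by linarith) (by linarith)
  have hε1 : ε * (u x - u z0) < u x - u z1 := by
    rw [hε, div_mul_eq_mul_div, div_lt_iff₀ (by linarith)]
    nlinarith
  set v : Fin d → ℝ := (x - z1) + ε • (z0 - x) with hv
  have huv : 0 < u v := by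
    rw [hv]
    simp only [map_add, map_sub, map_smul, smul_eq_mul]
    linarith
  obtain ⟨z2, hz2D, hlev2, f, hf0, hfD, hfz2, hfv⟩ :=
    T_gen hL hxD hlev (fun y hy => (hu y hy).1) huv
  have hz2x : z2 ≠ x := by
    rintro rfl
    linarith
  have hseg2 : segment ℝ x z2 ⊆ frontier D := by
    rintro _ ⟨a, b, ha, hb, hab, rfl⟩
    refine ⟨subset_closure (hD.1 hxD hz2D ha hb hab), fun hi => ?_⟩
    have h1 := T_int hf0 hfD hi
    rw [map_add, map_smul, map_smul, hfz2, smul_eq_mul, smul_eq_mul] at h1
    have h2 : a * f x + b * f x = f x := by rw [← add_mul, hab, one_mul]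
    linarith
  refine ⟨z1, hz1, z2, hseg2 (right_mem_segment ℝ x z2), hseg1, hseg2, hlev1, hlev2, ?_⟩
  rw [LinearIndependent.pair_iff]
  intro s t hst
  have hfz0 := T_int hf0 hfD hz0
  have hf1 : f z1 < f x := by
    rw [hv] at hfv
    simp only [map_add, map_sub, map_smul, smul_eq_mul] at hfv
    nlinarith
  have hs : s = 0 := by
    have h1 := congrArg f hst
    simp only [map_add, map_sub, map_smul, smul_eq_mul, map_zero] at h1
    rw [hfz2, sub_self, mul_zero, add_zero] at h1
    rcases mul_eq_zero.1 h1 with h | h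
    · exact h
    · linarith
  refine ⟨hs, ?_⟩
  rw [hs, zero_smul, zero_add] at hst
  rcases smul_eq_zero.1 hst with h | h
  · exact h
  · exact absurd (sub_eq_zero.1 h) hz2x

end Pool.Agent.SYS
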